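import Pool.Agent.Zk83.SB.Stm8

/-!
# Union bound over the boundary conditions
-/

set_option autoImplicit false

open MeasureTheory Filter Topology
open Pool.Agent.Zk58.EK

namespace Pool.Agent.Zk86.SB.X3

open Pool.Agent.Zk83.SB

variable {d : ℕ}

/-- the cube with its neighbours -/
noncomputable def bb (d n : ℕ) : Finset (Site d) := cube (fun _ => (-1 : ℤ)) (n + 2)

lemma mem_bb {n : ℕ} {x : Site d} : x ∈ bb d n ↔ ∀ i, -1 ≤ x i ∧ x i < n + 1 := by
  rw [bb, mem_cube]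
  refine forall_congr' fun i => ?_
  push_cast
  constructor
  · rintro ⟨h1, h2⟩
    exact ⟨h1, by linarith⟩
  · rintro ⟨h1, h2⟩
    exact ⟨h1, by linarith⟩

lemma mem_c0 {n : ℕ} {x : Site d} : x ∈ cube (0 : Site d) n ↔ ∀ i, 0 ≤ x i ∧ x i < n := by
  rw [mem_cube]
  simp

lemma c0_sub {n : ℕ} : cube (0 : Site d) n ⊆ bb d n := by
  intro x hx
  rw [mem_c0] at hx
  rw [mem_bb]
  intro i
  have := hx i
  constructor <;> linarith [this.1, this.2]

lemma tip_bb {n : ℕ} {e : Bond d} (h : e.1 ∈ cube (0 : Site d) n) : tip e ∈ bb d n := by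
  rw [mem_c0] at h
  rw [mem_bb]
  intro i
  have := h i
  rw [tip_apply]
  split_ifs <;> constructor <;> linarith [this.1, this.2]

lemma base_bb {n : ℕ} {e : Bond d} (h : tip e ∈ cube (0 : Site d) n) : e.1 ∈ bb d n := by
  rw [mem_c0] at h
  rw [mem_bb]
  intro i
  have := h i
  rw [tip_apply] at this
  split_ifs at this <;> constructor <;> linarith [this.1, this.2]

lemma near_bb {n : ℕ} {A : Finset (Site d)} (hA : A ⊆ cube (0 : Site d) n) {e : Bond d} (he : e ∈ near A) :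
    e.1 ∈ bb d n ∧ tip e ∈ bb d n := by
  classical
  unfold near at he
  rw [Finset.mem_union, Finset.mem_product, Finset.mem_image] at he
  rcases he with h | ⟨e', h, rfl⟩
  · have h1 := hA h.1
    exact ⟨c0_sub h1, tip_bb h1⟩
  · rw [Finset.mem_product] at h
    have h1 := hA h.1
    have h2 : tip ((e'.1 - (Pi.single e'.2 (1 : ℤ) : Fin d → ℤ), e'.2) : Bond d) = e'.1 := by
      simp [tip]
    exact ⟨base_bb (by rw [h2]; exact h1), by rw [h2]; exact c0_sub h1⟩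

lemma bs_cg {n : ℕ} {J : Bond d → ℝ} {ρ ρ' : Site d → ℝ} (h : ∀ x ∈ bb d n, ρ x = ρ' x) {A : Finset (Site d)}
    (hA : A ⊆ cube (0 : Site d) n) : bs J ρ A = bs J ρ' A := by
  classical
  unfold bs
  refine Finset.sum_congr rfl fun e he => ?_
  unfold bdry at he
  rw [Finset.mem_filter] at he
  have h1 := near_bb hA he.1
  rw [h _ h1.1, h _ h1.2]

lemma dif_cg {n : ℕ} {ρ ρ' τ τ' : Site d → ℝ} (h : ∀ x ∈ bb d n, ρ x = ρ' x) (h' : ∀ x ∈ bb d n, τ x = τ' x) :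
    dif 0 n ρ τ = dif 0 n ρ' τ' := by
  classical
  unfold dif
  congr 1
  refine Finset.filter_congr fun e he => ?_
  rw [Finset.mem_product] at he
  have h1 := he.1
  rw [h _ (c0_sub h1), h _ (tip_bb h1), h' _ (c0_sub h1), h' _ (tip_bb h1)]

lemma gs_cg {n : ℕ} {J : Bond d → ℝ} {ρ ρ' : Site d → ℝ} (h : ∀ x ∈ bb d n, ρ x = ρ' x)
    (h' : ∀ x, ρ' x = 1 ∨ ρ' x = -1) (hρ : CubeGS J 0 n ρ) : CubeGS J 0 n ρ' := by
  refine ⟨h', fun A hA => ?_⟩
  rw [← bs_cg h hA]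
  exact hρ.2 A hA

open Classical in
/-- the boundary condition of a pattern -/
noncomputable def eta (d n : ℕ) (p : {x : Site d // x ∈ bb d n \ cube (0 : Site d) n} → Bool) (x : Site d) : ℝ :=
  if h : x ∈ bb d n \ cube (0 : Site d) n then (if p ⟨x, h⟩ then 1 else -1) else 1

lemma eta_sign {n : ℕ} (p : {x : Site d // x ∈ bb d n \ cube (0 : Site d) n} → Bool) (x : Site d) :
    eta d n p x = 1 ∨ eta d n p x = -1 := by
  unfold eta
  split_ifs <;> simp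

open Classical in
/-- the configuration cut off outside the neighbourhood -/
noncomputable def cut (d n : ℕ) (ρ : Site d → ℝ) (x : Site d) : ℝ := if x ∈ bb d n then ρ x else 1

lemma cut_sign {n : ℕ} {ρ : Site d → ℝ} (h : ∀ x, ρ x = 1 ∨ ρ x = -1) (x : Site d) :
    cut d n ρ x = 1 ∨ cut d n ρ x = -1 := by
  unfold cut
  split_ifs
  · exact h x
  · simp

lemma cut_bb {n : ℕ} {ρ : Site d → ℝ} {x : Site d} (hx : x ∈ bb d n) : ρ x = cut d n ρ x := by
  unfold cut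
  rw [if_pos hx]

open Classical in
/-- the pattern -/
noncomputable def pat (d n : ℕ) (ρ : Site d → ℝ) (x : {x : Site d // x ∈ bb d n \ cube (0 : Site d) n}) : Bool :=
  decide (ρ x = 1)

lemma cut_eta {n : ℕ} {ρ : Site d → ℝ} (h : ∀ x, ρ x = 1 ∨ ρ x = -1) {x : Site d}
    (hx : x ∉ cube (0 : Site d) n) : cut d n ρ x = eta d n (pat d n ρ) x := by
  unfold cut eta pat
  by_cases h1 : x ∈ bb d n
  · rw [if_pos h1, dif_pos (Finset.mem_sdiff.2 ⟨h1, hx⟩)]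
    simp only [decide_eq_true_eq]
    rcases h x with h2 | h2
    · rw [h2, if_pos rfl]
    · rw [h2, if_neg (by norm_num)]
  · rw [if_neg h1, dif_neg fun h2 => h1 (Finset.mem_sdiff.1 h2).1]

lemma count (m : ℕ) : ∃ C : ℕ, ∀ n : ℕ, 1 ≤ n → (n + 2) ^ (m + 1) ≤ n ^ (m + 1) + C * n ^ m := by
  induction m with
  | zero => exact ⟨2, fun n _ => by simp⟩
  | succ m ih =>
    obtain ⟨C, hC⟩ := ih
    refine ⟨2 + C + 2 * C, fun n hn => ?_⟩
    have h1 := hC n hn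
    have h2 : n ^ m ≤ n ^ (m + 1) := Nat.pow_le_pow_right hn (Nat.le_succ m)
    calc (n + 2) ^ (m + 1 + 1) = (n + 2) ^ (m + 1) * (n + 2) := pow_succ _ _
      _ ≤ (n ^ (m + 1) + C * n ^ m) * (n + 2) := Nat.mul_le_mul_right _ h1
      _ = n ^ (m + 1 + 1) + 2 * n ^ (m + 1) + C * n ^ (m + 1) + 2 * C * n ^ m := by ring
      _ ≤ n ^ (m + 1 + 1) + 2 * n ^ (m + 1) + C * n ^ (m + 1) + 2 * C * n ^ (m + 1) :=
        Nat.add_le_add_left (Nat.mul_le_mul_left _ h2) _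
      _ = n ^ (m + 1 + 1) + (2 + C + 2 * C) * n ^ (m + 1) := by ring

lemma card_rim (hd : 1 ≤ d) : ∃ C : ℕ, ∀ n : ℕ, 1 ≤ n →
    (bb d n \ cube (0 : Site d) n).card ≤ C * n ^ (d - 1) := by
  obtain ⟨m, rfl⟩ : ∃ m, d = m + 1 := ⟨d - 1, by omega⟩
  obtain ⟨C, hC⟩ := count m
  refine ⟨C, fun n hn => ?_⟩
  rw [Finset.card_sdiff_of_subset c0_sub, bb, card_cube, card_cube, Nat.add_sub_cancel]
  have := hC n hn
  omega

end Pool.Agent.Zk86.SB.X3

namespace Pool.Agent.Zk86.SB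

open Pool.Agent.Zk83.SB Pool.Agent.Zk86.SB.X3

/-- The statement `StX3`. -/
theorem t_X3 : StX3 := by
  classical
  intro d hd
  obtain ⟨C, hC⟩ := card_rim (d := d) hd
  refine ⟨C * Real.log 4 + 1, fun S _ μ _ ψ ε n hn hE => ?_⟩
  by_contra hcon
  push Not at hcon
  set D := {x : Site d // x ∈ bb d n \ cube (0 : Site d) n} with hD
  set E : (D → Bool) × (D → Bool) → Set (Bond d → S) := fun q =>
    {X | ∃ ρ τ : Site d → ℝ, CubeGS (fun e => ψ (X e)) 0 n ρ ∧ CubeGS (fun e => ψ (X e)) 0 n τ ∧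
      (∀ x, x ∉ cube (0 : Site d) n → ρ x = eta d n q.1 x ∧ τ x = eta d n q.2 x) ∧
      ε * (n : ℝ) ^ d ≤ dif 0 n ρ τ} with hEd
  have hsub : {X : Bond d → S | ∃ ρ τ : Site d → ℝ, CubeGS (fun e => ψ (X e)) 0 n ρ ∧
      CubeGS (fun e => ψ (X e)) 0 n τ ∧
      ε * (n : ℝ) ^ d ≤ dif 0 n ρ τ} ⊆ ⋃ q, E q := by
    rintro X ⟨ρ, τ, hρ, hτ, h⟩
    refine Set.mem_iUnion.2 ⟨(pat d n ρ, pat d n τ), cut d n ρ, cut d n τ,
      gs_cg (fun x hx => cut_bb hx) (cut_sign hρ.1) hρ, gs_cg (fun x hx => cut_bb hx) (cut_sign hτ.1) hτ,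
      fun x hx => ⟨cut_eta hρ.1 hx, cut_eta hτ.1 hx⟩, ?_⟩
    rw [← dif_cg (fun x hx => cut_bb hx) (fun x hx => cut_bb hx)]
    exact h
  have h1 : (1 / 2 : ENNReal) ≤ ∑ _q : (D → Bool) × (D → Bool),
      ENNReal.ofReal (Real.exp (-((C * Real.log 4 + 1) * (n : ℝ) ^ (d - 1)))) :=
    (hE.trans (measure_mono hsub)).trans ((measure_iUnion_fintype_le _ _).trans
      (Finset.sum_le_sum fun q _ => (hcon _ _ (eta_sign q.1) (eta_sign q.2)).le))
  rw [Finset.sum_const, Finset.card_univ, Fintype.card_prod, Fintype.card_fun, Fintype.card_bool,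
    nsmul_eq_mul] at h1
  have hcard : Fintype.card D = (bb d n \ cube (0 : Site d) n).card := Fintype.card_coe _
  rw [hcard] at h1
  have hm := hC n hn
  set m := (bb d n \ cube (0 : Site d) n).card
  have e1 : ((2 ^ m * 2 ^ m : ℕ) : ENNReal) = ENNReal.ofReal ((4 : ℝ) ^ m) := by
    have h44 : 2 ^ m * 2 ^ m = 4 ^ m := by
      rw [← mul_pow]
      norm_num
    rw [h44, ← ENNReal.ofReal_natCast]
    push_cast
    rfl
  rw [e1, ← ENNReal.ofReal_mul (by positivity)] at h1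
  have h2 : (4 : ℝ) ^ m * Real.exp (-((C * Real.log 4 + 1) * (n : ℝ) ^ (d - 1))) < 1 / 2 := by
    have e2 : (4 : ℝ) ^ m = Real.exp (m * Real.log 4) := by
      rw [mul_comm, Real.exp_mul, Real.exp_log (by norm_num), Real.rpow_natCast]
    rw [e2, ← Real.exp_add]
    have h3 : (m : ℝ) ≤ C * (n : ℝ) ^ (d - 1) := by exact_mod_cast hm
    have h4 : (1 : ℝ) ≤ (n : ℝ) ^ (d - 1) := one_le_pow₀ (by exact_mod_cast hn)
    have h5 : 0 ≤ Real.log 4 := Real.log_nonneg (by norm_num)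
    have h6 : (m : ℝ) * Real.log 4 ≤ C * (n : ℝ) ^ (d - 1) * Real.log 4 := mul_le_mul_of_nonneg_right h3 h5
    have h7 : (m : ℝ) * Real.log 4 + -((C * Real.log 4 + 1) * (n : ℝ) ^ (d - 1)) ≤ -1 := by nlinarith
    refine (Real.exp_le_exp.2 h7).trans_lt ?_
    have := Real.exp_neg_one_lt_d9
    linarith
  have h8 : ENNReal.ofReal ((4 : ℝ) ^ m * Real.exp (-((C * Real.log 4 + 1) * (n : ℝ) ^ (d - 1)))) < 1 / 2 := by
    have e3 : (1 / 2 : ENNReal) = ENNReal.ofReal (1 / 2) := by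
      rw [ENNReal.ofReal_div_of_pos (by norm_num)]
      simp
    rw [e3]
    exact (ENNReal.ofReal_lt_ofReal_iff (by norm_num)).2 h2
  exact absurd h1 (not_le.2 h8)

end Pool.Agent.Zk86.SB
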