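import Pool.Agent.Zk83.SB.Stm9

/-!
# Chernoff bound for sums of iid variables in the infinite product
-/

set_option autoImplicit false

open MeasureTheory ProbabilityTheory Filter Topology

namespace Pool.Agent.Zk86.SB

open Pool.Agent.Zk83.SB

/-- The statement `StY1`. -/
theorem t_Y1 : StY1 := by
  intro ι _ S _ μ _ Y hY a ha hint E s
  set P : Measure (ι → S) := Measure.infinitePi fun _ : ι => μ with hP
  have hind : iIndepFun (fun (i : ι) (X : ι → S) => Y (X i)) P :=
    iIndepFun_infinitePi (X := fun _ : ι => Y) (fun _ => hY)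
  have hmeas : ∀ i : ι, Measurable (fun X : ι → S => Y (X i)) := fun i => hY.comp (measurable_pi_apply i)
  have hmp : ∀ i : ι, MeasurePreserving (Function.eval i) P μ := fun i =>
    measurePreserving_eval_infinitePi (fun _ : ι => μ) i
  have hint1 : ∀ i : ι, Integrable (fun X : ι → S => Real.exp (a * Y (X i))) P := fun i =>
    (hmp i).integrable_comp_of_integrable hint
  have hmgf : ∀ i : ι, mgf (fun X : ι → S => Y (X i)) P a = ∫ s, Real.exp (a * Y s) ∂μ := by
    intro i
    have h2 := integral_map (μ := P) (hmp i).measurable.aemeasurable (f := fun s => Real.exp (a * Y s))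
      (by rw [(hmp i).map_eq]; exact hint.aestronglyMeasurable)
    rw [(hmp i).map_eq] at h2
    exact h2.symm
  have hI : Integrable (fun X => Real.exp (a * (∑ i ∈ E, (fun (i : ι) (X : ι → S) => Y (X i)) i) X)) P :=
    hind.integrable_exp_mul_sum hmeas (fun i _ => hint1 i)
  have h1 := measure_ge_le_exp_mul_mgf (μ := P) (X := ∑ i ∈ E, (fun (i : ι) (X : ι → S) => Y (X i)) i) s ha.le hI
  rw [hind.mgf_sum hmeas E] at h1
  simp only [hmgf, Finset.prod_const] at h1
  simp only [Finset.sum_apply, neg_mul] at h1
  exact h1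

end Pool.Agent.Zk86.SB
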