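import Pool.Agent.Zk83.SB.Stm7
import Pool.Agent.Zk58.EK.Chaos

/-!
# The energy perturbed by an observable whose averages vanish on the ground states
-/

set_option autoImplicit false

open MeasureTheory Filter Topology
open Pool.Agent.Zk58.EK

namespace Pool.Agent.Zk86.SB

open Pool.Agent.Zk83.SB

/-- The statement `StE`. -/
theorem t_E : StE := by
  intro d hd S _ μ _ ψ hψ hψ2 hat k R F hF h0
  have hg := gg_convex hψ hψ2 hF
  obtain ⟨l, r, -, hR, hL, -, hr1, hl1, hlr⟩ := (cvx (gg μ ψ R F) hg).2 0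
  obtain ⟨N, hN, h1⟩ := seq_att hd hψ hψ2 hat hF hr1 hl1 hlr
  obtain ⟨X, ⟨⟨σ, hσ, hσ2⟩, τ, hτ, hτ2⟩, h2⟩ := (h1.and h0).exists
  have er : r = 0 := tendsto_nhds_unique hσ2 ((h2 σ hσ).comp hN.tendsto_atTop)
  have el : l = 0 := tendsto_nhds_unique hτ2 ((h2 τ hτ).comp hN.tendsto_atTop)
  subst er el
  refine ⟨gg μ ψ R F, hg, ?_, ?_, ?_⟩
  · have h3 := hasDerivWithinAt_Ioi_iff_Ici.1 hR
    have h4 := hasDerivWithinAt_Iio_iff_Iic.1 hL
    have h5 := h4.union h3
    rwa [Set.Iic_union_Ici, hasDerivWithinAt_univ] at h5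
  · intro t c
    filter_upwards [as_lim (μ := μ) hd (FT_good hψ hψ2 hF t) c] with X hX
    refine hX.congr fun n => ?_
    rw [maxE_eq fun t => (FT_good hψ hψ2 hF t).loc]
  · intro ε hε
    obtain ⟨δ₁, hδ₁, h3⟩ := as_near_at (t := 0) hd hψ hψ2 hF hlr hε
    obtain ⟨δ₂, hδ₂, h4⟩ := as_pert hd hψ hψ2 hF hlr hε
    refine ⟨min δ₁ δ₂, lt_min hδ₁ hδ₂, fun c => ?_⟩
    filter_upwards [h3 c, h4 c] with X h5 h6
    filter_upwards [h5, h6] with n h7 h8
    have hn : (0 : ℝ) ≤ (n : ℝ) ^ d := by positivity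
    constructor
    · intro σ hσ
      have h9 := h7 σ ⟨hσ.1, fun τ hτ => (hσ.2 τ hτ).trans
        (add_le_add_right (mul_le_mul_of_nonneg_right (min_le_left _ _) hn) _)⟩
      rw [abs_le]
      constructor <;> linarith [h9.1, h9.2]
    · intro J' σ hσ hJ
      have h9 := h8 J' σ hσ fun a => (hJ a).trans (mul_le_mul_of_nonneg_right (min_le_right _ _) hn)
      rw [abs_le]
      constructor <;> linarith [h9.1, h9.2]

end Pool.Agent.Zk86.SB
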