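import Pool.Agent.Zk83.SB.Stm5

/-!
# Large boxes tiled by cells of side `2 ρ + 1` have a small boundary
-/

set_option autoImplicit false

open MeasureTheory ProbabilityTheory Filter Topology

namespace Pool.Agent.Zk86.SB.G

open Pool.Agent.Zk83.SB

/-- the box -/
noncomputable def bx (d ρ n : ℕ) (t : ℤ) : Finset (Site d) :=
  Fintype.piFinset fun _ : Fin d => Finset.Icc (-(ρ : ℤ) - t) ((2 * (ρ : ℤ) + 1) * (n : ℤ) - ρ - 1 + t)

lemma mem_bx {d ρ n : ℕ} {t : ℤ} {x : Site d} :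
    x ∈ bx d ρ n t ↔ ∀ j, -(ρ : ℤ) - t ≤ x j ∧ x j ≤ (2 * (ρ : ℤ) + 1) * (n : ℤ) - ρ - 1 + t := by
  simp only [bx, Fintype.mem_piFinset, Finset.mem_Icc]

lemma card_bx (d ρ n t : ℕ) : (bx d ρ n (t : ℤ)).card = ((2 * ρ + 1) * n + 2 * t) ^ d := by
  rw [bx, Fintype.card_piFinset]
  simp only [Int.card_Icc, Finset.prod_const, Finset.card_univ, Fintype.card_fin]
  congr 1
  have : (2 * (ρ : ℤ) + 1) * (n : ℤ) - ρ - 1 + t + 1 - (-(ρ : ℤ) - t) =
      (((2 * ρ + 1) * n + 2 * t : ℕ) : ℤ) := by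
    push_cast
    ring
  rw [this, Int.toNat_natCast]

lemma tip_apply {d : ℕ} (e : Bond d) (j : Fin d) : e.1 j ≤ tip e j ∧ tip e j ≤ e.1 j + 1 := by
  simp only [tip, Pi.add_apply]
  by_cases h : j = e.2
  · subst h
    simp
  · rw [Pi.single_eq_of_ne h]
    simp

lemma lim (d ρ : ℕ) {δ : ℝ} (hδ : 0 < δ) :
    ∀ᶠ n : ℕ in atTop, (((2 * ρ + 1) * n + 2 : ℝ)) ^ d - ((2 * ρ + 1) * n : ℝ) ^ d ≤ δ * (n : ℝ) ^ d := by
  have h1 : Tendsto (fun n : ℕ => ((2 * ρ + 1 : ℝ) + 2 / (n : ℝ)) ^ d) atTop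
      (𝓝 (((2 * ρ + 1 : ℝ) + 0) ^ d)) :=
    (tendsto_const_nhds.add (tendsto_const_div_atTop_nhds_zero_nat 2)).pow d
  rw [add_zero] at h1
  have h2 := h1.eventually (gt_mem_nhds (show (2 * ρ + 1 : ℝ) ^ d < (2 * ρ + 1 : ℝ) ^ d + δ by linarith))
  filter_upwards [h2, eventually_ge_atTop 1] with n hn hn1
  have hn0 : (0 : ℝ) < n := by exact_mod_cast hn1
  have e1 : ((2 * ρ + 1) * n + 2 : ℝ) = ((2 * ρ + 1 : ℝ) + 2 / (n : ℝ)) * n := by
    field_simp
  rw [e1, mul_pow, mul_pow, ← sub_mul]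
  refine mul_le_mul_of_nonneg_right ?_ (by positivity)
  linarith

end Pool.Agent.Zk86.SB.G

namespace Pool.Agent.Zk86.SB

open Pool.Agent.Zk83.SB Pool.Agent.Zk86.SB.G

/-- The statement `StG`. -/
theorem t_G : StG := by
  intro d ρ δ hδ
  obtain ⟨n, hn, hn1⟩ := ((lim d ρ hδ).and (eventually_ge_atTop 1)).exists
  have hsub : bx d ρ n 0 ⊆ bx d ρ n 1 := by
    intro x hx
    rw [mem_bx] at hx ⊢
    intro j
    have := hx j
    constructor <;> linarith [this.1, this.2]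
  refine ⟨n, hn1, bx d ρ n 0, bx d ρ n 1 \ bx d ρ n 0, ?_, ?_, ?_⟩
  · intro e
    constructor
    · intro h1 h2
      rw [Finset.mem_sdiff]
      refine ⟨?_, h2⟩
      rw [mem_bx] at h1 ⊢
      intro j
      have := h1 j
      have ht := tip_apply e j
      constructor <;> linarith [this.1, this.2, ht.1, ht.2]
    · intro h1 h2
      rw [Finset.mem_sdiff]
      refine ⟨?_, h2⟩
      rw [mem_bx] at h1 ⊢
      intro j
      have := h1 j
      have ht := tip_apply e j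
      constructor <;> linarith [this.1, this.2, ht.1, ht.2]
  · intro i x hx
    rw [mem_bx]
    intro j
    have h := abs_le.1 (hx j)
    have h0 : (0 : ℤ) ≤ ((i j : ℕ) : ℤ) := Int.natCast_nonneg _
    have h1 : ((i j : ℕ) : ℤ) + 1 ≤ (n : ℤ) := by exact_mod_cast (i j).2
    have hρ : (0 : ℤ) ≤ ρ := Int.natCast_nonneg _
    have h2 : 0 ≤ (2 * (ρ : ℤ) + 1) * ((i j : ℕ) : ℤ) := by positivity
    have h3 : (2 * (ρ : ℤ) + 1) * (((i j : ℕ) : ℤ) + 1) ≤ (2 * (ρ : ℤ) + 1) * n :=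
      mul_le_mul_of_nonneg_left h1 (by positivity)
    constructor
    · linarith [h.1]
    · linarith [h.2]
  · rw [Finset.card_sdiff_of_subset hsub]
    have c0 := card_bx d ρ n 0
    have c1 := card_bx d ρ n 1
    simp only [Nat.cast_zero, Nat.cast_one, mul_zero, add_zero, mul_one] at c0 c1
    rw [c0, c1, Nat.cast_sub (Nat.pow_le_pow_left (Nat.le_add_right _ _) d)]
    push_cast
    exact hn

end Pool.Agent.Zk86.SB
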