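import Pool.Agent.Zk83.SB.Stm6

/-!
# Cells of side `L` with a margin `r` fill most of a large cube; the rim of a large cube is small
-/

set_option autoImplicit false

open MeasureTheory ProbabilityTheory Filter Topology

namespace Pool.Agent.Zk86.SB.G2

open Pool.Agent.Zk83.SB

lemma card_cube (d n : ℕ) : (cube d n).card = n ^ d := by
  rw [cube, Fintype.card_piFinset]
  simp only [Int.card_Ico, Finset.prod_const, Finset.card_univ, Fintype.card_fin]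
  congr 1

lemma card_big (d n : ℕ) :
    (Fintype.piFinset fun _ : Fin d => Finset.Ico (-1 : ℤ) (n + 1)).card = (n + 2) ^ d := by
  rw [Fintype.card_piFinset]
  simp only [Int.card_Ico, Finset.prod_const, Finset.card_univ, Fintype.card_fin]
  congr 1

lemma card_rim (d n : ℕ) : ((rim d n).card : ℝ) = ((n : ℝ) + 2) ^ d - (n : ℝ) ^ d := by
  have hsub : cube d n ⊆ Fintype.piFinset fun _ : Fin d => Finset.Ico (-1 : ℤ) (n + 1) := by
    intro x hx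
    simp only [cube, Fintype.mem_piFinset, Finset.mem_Ico] at hx ⊢
    intro j
    have := hx j
    constructor <;> linarith [this.1, this.2]
  rw [rim, Finset.card_sdiff_of_subset hsub, card_cube, card_big,
    Nat.cast_sub (Nat.pow_le_pow_left (Nat.le_add_right _ _) d)]
  push_cast
  rfl

lemma fl (L : ℕ) :
    Tendsto (fun n : ℕ => ((n / L : ℕ) : ℝ) / (n : ℝ)) atTop (𝓝 (1 / (L : ℝ))) := by
  have h := (tendsto_nat_floor_mul_div_atTop (R := ℝ) (a := 1 / (L : ℝ)) (by positivity)).comp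
    tendsto_natCast_atTop_atTop
  refine h.congr fun n => ?_
  simp only [Function.comp]
  rw [show 1 / (L : ℝ) * n = (n : ℝ) / L by ring, Nat.floor_div_eq_div]

lemma exL (d r : ℕ) {δ : ℝ} (hδ : 0 < δ) :
    ∃ L : ℕ, 1 ≤ L ∧ 2 * r ≤ L ∧ 1 - δ / 2 < (1 - 2 * r / (L : ℝ)) ^ d := by
  have h1 : Tendsto (fun L : ℕ => (1 - 2 * r / (L : ℝ)) ^ d) atTop (𝓝 ((1 - 0 : ℝ) ^ d)) :=
    (tendsto_const_nhds.sub (tendsto_const_div_atTop_nhds_zero_nat (2 * r : ℝ))).pow d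
  rw [sub_zero, one_pow] at h1
  have h2 := h1.eventually (lt_mem_nhds (show (1 : ℝ) - δ / 2 < 1 by linarith))
  obtain ⟨L, ⟨hL, h3⟩, h4⟩ := ((h2.and (eventually_ge_atTop 1)).and (eventually_ge_atTop (2 * r))).exists
  exact ⟨L, h3, h4, hL⟩

lemma ev1 (d r L : ℕ) (hL : 1 ≤ L) {δ : ℝ}
    (h : 1 - δ / 2 < (1 - 2 * r / (L : ℝ)) ^ d) :
    ∀ᶠ n : ℕ in atTop,
      (n : ℝ) ^ d - ((n / L : ℕ) : ℝ) ^ d * ((L : ℝ) - 2 * r) ^ d ≤ δ / 2 * (n : ℝ) ^ d := by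
  have hL0 : (0 : ℝ) < L := by exact_mod_cast hL
  have h1 : Tendsto (fun n : ℕ => (((n / L : ℕ) : ℝ) / (n : ℝ)) ^ d * ((L : ℝ) - 2 * r) ^ d) atTop
      (𝓝 ((1 / (L : ℝ)) ^ d * ((L : ℝ) - 2 * r) ^ d)) := ((fl L).pow d).mul_const _
  have e1 : (1 / (L : ℝ)) ^ d * ((L : ℝ) - 2 * r) ^ d = (1 - 2 * r / (L : ℝ)) ^ d := by
    rw [← mul_pow]
    congr 1
    field_simp
  rw [e1] at h1
  filter_upwards [h1.eventually (lt_mem_nhds h), eventually_ge_atTop 1] with n hn hn1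
  have hn0 : (0 : ℝ) < n := by exact_mod_cast hn1
  have e2 : ((n / L : ℕ) : ℝ) ^ d = (((n / L : ℕ) : ℝ) / (n : ℝ)) ^ d * (n : ℝ) ^ d := by
    rw [← mul_pow, div_mul_cancel₀ _ hn0.ne']
  rw [e2]
  have h3 : 0 < (n : ℝ) ^ d := by positivity
  nlinarith

lemma ev2 (d k : ℕ) (hd : 1 ≤ d) {ε : ℝ} (hε : 0 < ε) :
    ∀ᶠ n : ℕ in atTop, (k * ((rim d n).card : ℝ) + 1) * Real.log 2 ≤ ε * (n : ℝ) ^ d := by
  have h1 : Tendsto (fun n : ℕ => (1 + 2 / (n : ℝ)) ^ d) atTop (𝓝 ((1 + 0 : ℝ) ^ d)) :=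
    (tendsto_const_nhds.add (tendsto_const_div_atTop_nhds_zero_nat (2 : ℝ))).pow d
  have h2 : Tendsto (fun n : ℕ => (1 / (n : ℝ)) ^ d) atTop (𝓝 ((0 : ℝ) ^ d)) :=
    (tendsto_const_div_atTop_nhds_zero_nat (1 : ℝ)).pow d
  rw [add_zero, one_pow] at h1
  rw [zero_pow (by omega)] at h2
  have h3 : Tendsto (fun n : ℕ => (k * ((1 + 2 / (n : ℝ)) ^ d - 1) + (1 / (n : ℝ)) ^ d) * Real.log 2) atTop
      (𝓝 ((k * ((1 : ℝ) - 1) + 0) * Real.log 2)) :=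
    (((h1.sub_const 1).const_mul (k : ℝ)).add h2).mul_const _
  rw [sub_self, mul_zero, add_zero, zero_mul] at h3
  filter_upwards [h3.eventually (gt_mem_nhds hε), eventually_ge_atTop 1] with n hn hn1
  have hn0 : (0 : ℝ) < n := by exact_mod_cast hn1
  have h4 : 0 < (n : ℝ) ^ d := by positivity
  rw [card_rim]
  have e1 : (k * (((n : ℝ) + 2) ^ d - (n : ℝ) ^ d) + 1) * Real.log 2 =
      ((k * ((1 + 2 / (n : ℝ)) ^ d - 1) + (1 / (n : ℝ)) ^ d) * Real.log 2) * (n : ℝ) ^ d := by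
    have e2 : ((n : ℝ) + 2) ^ d = (1 + 2 / (n : ℝ)) ^ d * (n : ℝ) ^ d := by
      rw [← mul_pow]
      congr 1
      field_simp
    have e3 : (1 / (n : ℝ)) ^ d * (n : ℝ) ^ d = 1 := by
      rw [← mul_pow, one_div_mul_cancel hn0.ne', one_pow]
    rw [e2]
    linear_combination (-Real.log 2) * e3
  rw [e1]
  exact mul_le_mul_of_nonneg_right hn.le h4.le

end Pool.Agent.Zk86.SB.G2

namespace Pool.Agent.Zk86.SB

open Pool.Agent.Zk83.SB Pool.Agent.Zk86.SB.G2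

/-- The statement `StG2`. -/
theorem t_G2 : StG2 := by
  intro d r k hd δ hδ
  obtain ⟨L, hL, hr, h⟩ := exL d r hδ
  have hL0 : (0 : ℝ) < L := by exact_mod_cast hL
  refine ⟨L, hL, hr, ?_⟩
  obtain ⟨n₀, hn⟩ := eventually_atTop.1 (((eventually_ge_atTop 1).and (ev1 d r L hL h)).and
    (ev2 d k hd (show 0 < δ ^ 2 / (16 * (L : ℝ) ^ d) by positivity)))
  exact ⟨n₀, fun n hn0 => ⟨(hn n hn0).1.1, (hn n hn0).1.2, (hn n hn0).2⟩⟩

end Pool.Agent.Zk86.SB
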