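import Pool.Agent.Zk83.SB.Stm3
import Pool.Agent.Zk69.SB.B

/-!
# The zero-one law for translation invariant events of iid couplings

Module StZ of the project SB of helper83.
-/

set_option autoImplicit false

open MeasureTheory ProbabilityTheory Filter Topology
open Pool.Agent.Zk83.SB Pool.Agent.Zk69.SB

namespace Pool.Agent.Zk86.SB

theorem mp_iid {d : ℕ} (μ : Measure ℝ) [IsProbabilityMeasure μ] (v : Site d) :
    MeasurePreserving (mJ v) (Measure.infinitePi fun _ : Bond d => μ)
      (Measure.infinitePi fun _ : Bond d => μ) :=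
  ⟨measurable_mJ v, Measure.map_infinitePi_infinitePi_of_inj (P := fun _ : Bond d => μ)
    (f := fun e : Bond d => shiftB v e) (shiftB v).injective⟩

/-- a translation moving a finite set of bonds off itself -/
theorem exists_shift {d : ℕ} (hd : 1 ≤ d) (F : Set (Bond d)) (hF : F.Finite) :
    ∃ v : Site d, Disjoint F (shiftB v '' F) := by
  let i₀ : Fin d := ⟨0, hd⟩
  obtain ⟨N, hN⟩ := (hF.image (fun e : Bond d => |e.1 i₀|)).bddAbove
  have hN' : ∀ e ∈ F, |e.1 i₀| ≤ N := fun e he => hN ⟨e, he, rfl⟩
  refine ⟨Pi.single i₀ (2 * |N| + 1), Set.disjoint_left.2 ?_⟩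
  rintro e he ⟨e', he', rfl⟩
  have h1 := hN' _ he
  have h2 := hN' _ he'
  have h3 : (shiftB (Pi.single i₀ (2 * |N| + 1) : Site d) e').1 i₀ = e'.1 i₀ + (2 * |N| + 1) := by
    change (e'.1 + (Pi.single i₀ (2 * |N| + 1) : Site d)) i₀ = _
    rw [Pi.add_apply, Pi.single_eq_same]
  rw [h3] at h1
  have h4 := le_abs_self N
  have h5 := abs_le.1 h1
  have h6 := abs_le.1 h2
  omega

theorem approx {d : ℕ} (hd : 1 ≤ d) (μ : Measure ℝ) [IsProbabilityMeasure μ] (f : (Bond d → ℝ) → ℝ)
    (hf : Measurable f) (hf1 : ∀ x, f x = 0 ∨ f x = 1)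
    (hinv : ∀ v : Site d, (fun J => f (mJ v J)) =ᵐ[Measure.infinitePi fun _ : Bond d => μ] f)
    (ε : ℝ) (hε : 0 < ε) :
    |(∫ J, f J ∂(Measure.infinitePi fun _ : Bond d => μ)) -
      (∫ J, f J ∂(Measure.infinitePi fun _ : Bond d => μ)) *
        ∫ J, f J ∂(Measure.infinitePi fun _ : Bond d => μ)| ≤ 2 * ε := by
  have := Encodable.ofCountable (Bond d)
  set P := Measure.infinitePi fun _ : Bond d => μ with hP
  have hf0 : ∀ x, |f x| ≤ 1 := by
    intro x
    rcases hf1 x with h | h <;> rw [h] <;> norm_num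
  have hfm : StronglyMeasurable[⨆ n, (fil (Bond d)) n] f := by
    rw [iSup_fil]
    exact hf.stronglyMeasurable
  have hfi : Integrable f P := Integrable.of_bound hf.aestronglyMeasurable 1
    (Eventually.of_forall fun x => by rw [Real.norm_eq_abs]; exact hf0 x)
  have hlim := hfi.tendsto_eLpNorm_condExp (ℱ := fil (Bond d)) hfm
  have hε' : (0 : ENNReal) < ENNReal.ofReal ε := ENNReal.ofReal_pos.2 hε
  obtain ⟨n, hn⟩ := ((tendsto_order.1 hlim).2 _ hε').exists
  set h : (Bond d → ℝ) → ℝ := P[f|(fil (Bond d)) n] with hh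
  have hhm : StronglyMeasurable[(fil (Bond d)) n] h := stronglyMeasurable_condExp
  have hhi : Integrable h P := integrable_condExp
  have hle : (fil (Bond d)) n ≤ MeasurableSpace.pi := (fil (Bond d)).le n
  have hhm' : StronglyMeasurable h := hhm.mono hle
  have hh1 : ∀ᵐ x ∂P, |h x| ≤ 1 := by
    have := ae_bdd_condExp_of_ae_bdd (m := (fil (Bond d)) n) (μ := P) (R := 1) (f := f)
      (Eventually.of_forall fun x => by simpa using hf0 x)
    simpa using this
  have hd' : Integrable (fun x => |f x - h x|) P := (hfi.sub hhi).abs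
  have hsmall : ∫ x, |f x - h x| ∂P ≤ ε := by
    have h1 : eLpNorm (h - f) 1 P = ENNReal.ofReal (∫ x, |f x - h x| ∂P) := by
      rw [eLpNorm_one_eq_lintegral_enorm, ofReal_integral_eq_lintegral_ofReal hd'
        (Eventually.of_forall fun x => abs_nonneg _)]
      refine lintegral_congr fun x => ?_
      rw [Pi.sub_apply, ← ofReal_norm, Real.norm_eq_abs, abs_sub_comm]
    rw [h1] at hn
    exact (ENNReal.ofReal_lt_ofReal_iff hε).1 hn |>.le
  have hint : ∫ x, h x ∂P = ∫ x, f x ∂P := integral_condExp hle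
  obtain ⟨v, hv⟩ := exists_shift hd (Low (Bond d) n) (low_finite (Bond d) n)
  have hT : MeasurePreserving (mJ v) P P := mp_iid μ v
  -- independence
  have hcomap : ∀ i : Bond d, MeasurableSpace.comap (fun x : Bond d → ℝ => x i) inferInstance ≤
      (MeasurableSpace.pi : MeasurableSpace (Bond d → ℝ)) := fun i => (measurable_pi_apply i).comap_le
  have hii : iIndep (fun i : Bond d => MeasurableSpace.comap (fun x : Bond d → ℝ => x i)
      (inferInstance : MeasurableSpace ℝ)) P := by
    have h0 : iIndepFun (fun (i : Bond d) (x : Bond d → ℝ) => x i) P :=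
      iIndepFun_infinitePi (P := fun _ : Bond d => μ) (X := fun _ x => x) (fun i => measurable_id)
    exact h0
  have hind : Indep ((fil (Bond d)) n) (⨆ i ∈ shiftB v '' Low (Bond d) n,
      MeasurableSpace.comap (fun x : Bond d → ℝ => x i) inferInstance) P :=
    indep_iSup_of_disjoint hcomap hii hv
  have hTm : MeasurableSpace.comap (mJ v) ((fil (Bond d)) n) ≤
      ⨆ i ∈ shiftB v '' Low (Bond d) n,
        MeasurableSpace.comap (fun x : Bond d → ℝ => x i) inferInstance := by
    change MeasurableSpace.comap (mJ v) (⨆ i ∈ Low (Bond d) n,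
      MeasurableSpace.comap (fun x : Bond d → ℝ => x i) inferInstance) ≤ _
    rw [MeasurableSpace.comap_iSup]
    refine iSup_le fun i => ?_
    rw [MeasurableSpace.comap_iSup]
    refine iSup_le fun hi => ?_
    rw [MeasurableSpace.comap_comp]
    exact le_iSup₂ (f := fun (j : Bond d) (_ : j ∈ shiftB v '' Low (Bond d) n) =>
      MeasurableSpace.comap (fun x : Bond d → ℝ => x j) inferInstance) (shiftB v i) ⟨i, hi, rfl⟩
  have hindf : IndepFun h (fun x => h (mJ v x)) P := by
    have h1 : MeasurableSpace.comap h inferInstance ≤ (fil (Bond d)) n := hhm.measurable.comap_le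
    have h2 : MeasurableSpace.comap (fun x => h (mJ v x)) inferInstance ≤
        ⨆ i ∈ shiftB v '' Low (Bond d) n,
          MeasurableSpace.comap (fun x : Bond d → ℝ => x i) inferInstance := by
      refine le_trans ?_ hTm
      change MeasurableSpace.comap (h ∘ mJ v) inferInstance ≤ _
      rw [← MeasurableSpace.comap_comp]
      exact MeasurableSpace.comap_mono h1
    exact indep_of_indep_of_le_left (indep_of_indep_of_le_right hind h2) h1
  have hhT : Integrable (fun x => h (mJ v x)) P := hT.integrable_comp_of_integrable hhi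
  have hprod : ∫ x, h x * h (mJ v x) ∂P = (∫ x, f x ∂P) * ∫ x, f x ∂P := by
    rw [hindf.integral_fun_mul_eq_mul_integral hhi.aestronglyMeasurable hhT.aestronglyMeasurable]
    have h3 : ∫ x, h (mJ v x) ∂P = ∫ x, h x ∂P := by
      have h2 := integral_map (μ := P) hT.measurable.aemeasurable
        (f := h) (by rw [hT.map_eq]; exact hhi.aestronglyMeasurable)
      rw [hT.map_eq] at h2
      exact h2.symm
    rw [h3, hint]
  have hff : ∫ x, f x ∂P = ∫ x, f x * f (mJ v x) ∂P := by
    refine integral_congr_ae ?_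
    filter_upwards [hinv v] with x hx
    rw [hx]
    rcases hf1 x with h | h <;> rw [h] <;> norm_num
  have hdT : Integrable (fun x => |f (mJ v x) - h (mJ v x)|) P :=
    hT.integrable_comp_of_integrable hd'
  have hTi : ∫ x, |f (mJ v x) - h (mJ v x)| ∂P = ∫ x, |f x - h x| ∂P := by
    have h2 := integral_map (μ := P) hT.measurable.aemeasurable
      (f := fun x => |f x - h x|) (by rw [hT.map_eq]; exact hd'.aestronglyMeasurable)
    rw [hT.map_eq] at h2
    exact h2.symm
  have hfT : Integrable (fun x => f (mJ v x)) P := hT.integrable_comp_of_integrable hfi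
  have hi1 : Integrable (fun x => f x * f (mJ v x)) P := by
    refine hfT.bdd_mul hfi.aestronglyMeasurable (c := 1) (Eventually.of_forall fun x => ?_)
    rw [Real.norm_eq_abs]; exact hf0 x
  have hi2 : Integrable (fun x => h x * h (mJ v x)) P := by
    refine hhT.bdd_mul hhi.aestronglyMeasurable (c := 1) ?_
    filter_upwards [hh1] with x hx
    rw [Real.norm_eq_abs]; exact hx
  have hh1T : ∀ᵐ x ∂P, |h (mJ v x)| ≤ 1 := hT.quasiMeasurePreserving.ae hh1
  rw [← hprod]
  conv_lhs => rw [hff]
  rw [← integral_sub hi1 hi2]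
  calc |∫ x, (f x * f (mJ v x) - h x * h (mJ v x)) ∂P|
      ≤ ∫ x, |f x * f (mJ v x) - h x * h (mJ v x)| ∂P := abs_integral_le_integral_abs
    _ ≤ ∫ x, (|f (mJ v x) - h (mJ v x)| + |f x - h x|) ∂P := by
        refine integral_mono_ae (hi1.sub hi2).abs (hdT.add hd') ?_
        filter_upwards [hh1T] with x hx
        have h1 : f x * f (mJ v x) - h x * h (mJ v x) =
            f x * (f (mJ v x) - h (mJ v x)) + (f x - h x) * h (mJ v x) := by ring
        rw [h1]
        refine (abs_add_le _ _).trans ?_
        rw [abs_mul, abs_mul]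
        have h2 : |f x| * |f (mJ v x) - h (mJ v x)| ≤ 1 * |f (mJ v x) - h (mJ v x)| :=
          mul_le_mul_of_nonneg_right (hf0 x) (abs_nonneg _)
        have h3 : |f x - h x| * |h (mJ v x)| ≤ |f x - h x| * 1 :=
          mul_le_mul_of_nonneg_left hx (abs_nonneg _)
        linarith
    _ = ∫ x, |f (mJ v x) - h (mJ v x)| ∂P + ∫ x, |f x - h x| ∂P := integral_add hdT hd'
    _ ≤ 2 * ε := by rw [hTi]; linarith

/-- the zero-one law -/
theorem t_Z : Pool.Agent.Zk83.SB.StZ := by
  intro d hd μ _ A hA hinv
  set P := Measure.infinitePi fun _ : Bond d => μ with hP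
  let f : (Bond d → ℝ) → ℝ := A.indicator 1
  have hf : Measurable f := measurable_one.indicator hA
  have hf1 : ∀ x, f x = 0 ∨ f x = 1 := by
    intro x
    by_cases hx : x ∈ A
    · exact Or.inr (Set.indicator_of_mem hx _)
    · exact Or.inl (Set.indicator_of_notMem hx _)
  have hfinv : ∀ v : Site d, (fun J => f (mJ v J)) =ᵐ[P] f := by
    intro v
    filter_upwards [hinv v] with x hx
    have hx' : (mJ v x ∈ A) = (x ∈ A) := hx
    by_cases h : x ∈ A
    · have h' : mJ v x ∈ A := by rw [hx']; exact h
      have e1 : f (mJ v x) = 1 := Set.indicator_of_mem h' _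
      have e2 : f x = 1 := Set.indicator_of_mem h _
      rw [e1, e2]
    · have h' : mJ v x ∉ A := by rw [hx']; exact h
      have e1 : f (mJ v x) = 0 := Set.indicator_of_notMem h' _
      have e2 : f x = 0 := Set.indicator_of_notMem h _
      rw [e1, e2]
  have hint : ∫ x, f x ∂P = P.real A := by
    rw [integral_indicator_one hA]
  have key : ∀ ε > 0, |P.real A - P.real A * P.real A| ≤ ε := by
    intro ε hε
    have := approx hd μ f hf hf1 hfinv (ε / 2) (half_pos hε)
    rw [← hP, hint] at this
    linarith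
  have h0 : P.real A - P.real A * P.real A = 0 := by
    have h1 : |P.real A - P.real A * P.real A| ≤ 0 := le_of_forall_pos_le_add fun ε hε => by
      rw [zero_add]; exact key ε hε
    exact abs_nonpos_iff.1 h1
  have h2 : P.real A * (1 - P.real A) = 0 := by linear_combination h0
  rcases mul_eq_zero.1 h2 with h3 | h3
  · left
    exact (measureReal_eq_zero_iff (measure_ne_top P A)).1 h3
  · right
    have h4 : P.real A = 1 := by linarith
    rw [measureReal_def] at h4
    rw [← ENNReal.ofReal_toReal (measure_ne_top P A), h4, ENNReal.ofReal_one]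

end Pool.Agent.Zk86.SB
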